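import Mathlib
import Pool.Agent.H4.Rec3
import Pool.Agent.H4.Lin2

set_option autoImplicit false

namespace Pool.Agent.Results.MP_cd1425_an.DirectSums

open Filter Topology TopologicalSpace

/-- the number of elements of `A` in `[m, m + N]` -/
noncomputable def cnt (A : Set ℕ) (m N : ℕ) : ℝ := ((A ∩ Set.Icc m (m + N)).ncard : ℕ)

/-- positive lower density -/
def LowerPos (A : Set ℕ) : Prop := ∃ δ : ℝ, 0 < δ ∧ ∀ᶠ N : ℕ in atTop, δ * (N + 1) ≤ cnt A 0 N

/-- positive upper density -/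
def UpperPos (A : Set ℕ) : Prop := ∃ δ : ℝ, 0 < δ ∧ ∃ᶠ N : ℕ in atTop, δ * (N + 1) ≤ cnt A 0 N

/-- positive upper Banach density -/
def BanachPos (A : Set ℕ) : Prop := ∃ δ : ℝ, 0 < δ ∧ ∀ N : ℕ, ∃ m : ℕ, δ * (N + 1) ≤ cnt A m N

/-- infinite with bounded gaps -/
def Syndetic (A : Set ℕ) : Prop := ∃ M : ℕ, ∀ n : ℕ, ∃ k ∈ A, n ≤ k ∧ k ≤ n + M

/-- the points all of whose return sets lie in the family `F` are dense -/
def RecOp (F : Set ℕ → Prop) {X : Type} [TopologicalSpace X] (T : X → X) : Prop :=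
  Dense {x : X | ∀ U ∈ 𝓝 x, F {n : ℕ | T^[n] x ∈ U}}

/-- the `n`-fold direct sum, acting coordinatewise on `X ^ n` -/
def dsum {X : Type} (T : X → X) (n : ℕ) : (Fin n → X) → (Fin n → X) := fun x i => T (x i)

open Pool.Agent.H4.Rec in
theorem banach_eq : BanachPos = IB := by
  funext A
  have h : ∀ m N, cnt A m N = c (· ∈ A) m (N + 1) := fun m N => by
    rw [cnt, c_eq]
    congr 2
    ext n
    simp only [Set.mem_inter_iff, Set.mem_Icc, Set.mem_setOf_eq, ← add_assoc, Nat.lt_succ_iff]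
    tauto
  rw [eq_iff_iff, IB_iff]
  refine exists_congr fun δ => and_congr_right fun _ => ⟨fun h1 N hN => ?_, fun h1 N => ?_⟩
  · obtain ⟨N, rfl⟩ := Nat.exists_eq_add_of_le' hN
    simpa only [h, Nat.cast_add, Nat.cast_one] using h1 N
  · simpa only [h, Nat.cast_add, Nat.cast_one] using h1 (N + 1) (by omega)

theorem lower_upper {X : Type} [TopologicalSpace X] {T : X → X} (h : RecOp LowerPos T) :
    RecOp UpperPos T := by
  refine Dense.mono ?_ h
  intro x hx U hU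
  obtain ⟨δ, h1, h2⟩ := hx U hU
  exact ⟨δ, h1, h2.frequently⟩

theorem result :
    (∀ (X : Type) [TopologicalSpace X] [IsCompletelyMetrizableSpace X] (T : X → X),
      Continuous T → ∀ n : ℕ,
        (RecOp BanachPos T → RecOp BanachPos (dsum T n)) ∧
        (RecOp Syndetic T → RecOp Syndetic (dsum T n))) ∧
    (∀ (K : Type) [RCLike K], ∃ (X : Type) (_ : NormedAddCommGroup X) (_ : NormedSpace K X)
      (_ : CompleteSpace X) (T : X →L[K] X), RecOp LowerPos T ∧ RecOp UpperPos T ∧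
        ∀ n : ℕ, 2 ≤ n → ¬ RecOp LowerPos (dsum T n) ∧ ¬ RecOp UpperPos (dsum T n)) := by
  refine ⟨fun X _ _ T hT n => ⟨fun h => ?_, fun h => H4.Rec.main_Syn.sum X T hT h n⟩,
    fun K _ => ?_⟩
  · rw [banach_eq] at h ⊢
    exact H4.Rec.main_IB.sum X T hT h n
  obtain ⟨X, _, _, _, T, P, hP, hD, hB⟩ := Pool.Agent.H4.Lin.main K
  have hT : ∀ (n : ℕ) (x : X), (⇑T)^[n] x = (T ^ n) x := fun n x => by
    rw [ContinuousLinearMap.coe_pow']
  have h1 : RecOp LowerPos T := hD.mono fun x hx U hU => by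
    obtain ⟨ε, hε, hb⟩ := Metric.mem_nhds_iff.1 hU
    obtain ⟨δ, hδ, N₀, hN⟩ := hx ε hε
    refine ⟨δ / 2, by positivity, eventually_atTop.2 ⟨N₀ + 1, fun N hN' => ?_⟩⟩
    have h2 : (1 : ℝ) ≤ N := by exact_mod_cast (by omega : 1 ≤ N)
    refine le_trans (by nlinarith) ((hN N (by omega)).trans ?_)
    rw [cnt, Nat.cast_le]
    exact Set.ncard_le_ncard (fun n hn => ⟨by
      rw [Set.mem_setOf_eq, hT]; exact hb (mem_ball_iff_norm.2 hn.2.2),
      Nat.zero_le _, by simpa using hn.2.1⟩) ((Set.finite_Icc _ _).inter_of_right _)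
  have h2 : ∀ n : ℕ, 2 ≤ n → ¬ RecOp UpperPos (dsum T n) := by
    intro n hn h
    let i : Fin n := ⟨0, by omega⟩
    let j : Fin n := ⟨1, by omega⟩
    let D : (Fin n → X) → K := fun y => (P (y i)).1 * (P (y j)).2 - (P (y i)).2 * (P (y j)).1
    obtain ⟨a, ha⟩ := hP (1, 0)
    obtain ⟨b, hb⟩ := hP (0, 1)
    obtain ⟨y, hy, hy'⟩ := h.inter_open_nonempty {y | D y ≠ 0}
      (isOpen_ne_fun (by fun_prop) continuous_const)
      ⟨fun k => if k = i then a else b, by simp [D, i, j, ha, hb]⟩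
    have h3 := H4.Rec.RecF.factor (F := UpperPos) (S := T) hy'
      (fun z => ((P (y j)).2 / D y) • z i - ((P (y i)).2 / D y) • z j) (by fun_prop)
      fun z => by simp [dsum]
    have hD0 : D y ≠ 0 := hy
    obtain ⟨δ, hδ, h4⟩ := h3 _ (Metric.ball_mem_nhds _ (show (0 : ℝ) < 1 / 2 by norm_num))
    obtain ⟨N₁, hN₁⟩ := hB (((P (y j)).2 / D y) • y i - ((P (y i)).2 / D y) • y j) (by
      rw [map_sub, map_smul, map_smul]
      ext
      · simp only [Prod.fst_sub, Prod.smul_fst, smul_eq_mul]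
        field_simp
        simp only [D]; ring
      · simp only [Prod.snd_sub, Prod.smul_snd, smul_eq_mul]
        field_simp
        ring) δ hδ
    obtain ⟨N, h5, h6⟩ := frequently_atTop.1 h4 N₁
    refine absurd (le_trans (by nlinarith) (h6.trans ?_)) (not_le.2 (hN₁ N h5))
    rw [cnt, Nat.cast_le]
    exact Set.ncard_le_ncard (fun n hn => ⟨by simpa using hn.2.2, by
      rw [← hT]; exact mem_ball_iff_norm.1 hn.1⟩) ((Set.finite_Iic _).subset fun n hn => hn.1)
  exact ⟨X, _, _, inferInstance, T, h1, lower_upper h1,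
    fun n hn => ⟨fun h => h2 n hn (lower_upper h), h2 n hn⟩⟩

end Pool.Agent.Results.MP_cd1425_an.DirectSums
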